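import Mathlib

/-!
# Automorphisms of the tree of Young–Fibonacci paths (MP_ac28de_co)
-/

namespace Pool.Agent.Results.MP_ac28de_co.AutDescription

/-- The alphabet `{1, 2}`. -/
inductive Letter | one | two
  deriving DecidableEq

open Letter

/-- Elements of the Young–Fibonacci lattice. -/
abbrev Word := List Letter

/-- `Cover x y`: `y` covers `x` in the Young–Fibonacci lattice, i.e. `x` is obtained from `y` by
deleting the leftmost letter `1`, or by replacing by `1` a letter `2` with only `2`s to its
left. -/
def Cover (x y : Word) : Prop :=
  ∃ u v : Word, (∀ a ∈ u, a = two) ∧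
    ((y = u ++ one :: v ∧ x = u ++ v) ∨ (y = u ++ two :: v ∧ x = u ++ one :: v))

/-- The saturated chain `∅ = x₀ ⋖ x₁ ⋖ ⋯ ⋖ xₙ` is stored as the list `[xₙ, …, x₁, x₀]`. -/
def IsPath : List Word → Prop
  | [] => False
  | [x] => x = []
  | y :: x :: l => Cover x y ∧ IsPath (x :: l)

/-- Vertices of the tree `T`. -/
def Vertex : Type := {l : List Word // IsPath l}

/-- The tree `T`: a chain is adjacent to the chain obtained by deleting its last element. -/
def T : SimpleGraph Vertex where
  Adj c d := (∃ w, c.1 = w :: d.1) ∨ (∃ w, d.1 = w :: c.1)
  symm := ⟨fun _ _ h => h.symm⟩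
  loopless := ⟨fun c h => by
    rcases h with ⟨w, h⟩ | ⟨w, h⟩ <;>
    · have := congrArg List.length h
      simp at this⟩

/-- The chain ends in a word `2…21` (with `j ≥ 0` letters `2`). -/
def IsBranch (c : Vertex) : Prop := ∃ j, c.1.head? = some (List.replicate j two ++ [one])

/-- The set `B` of chains ending in a word of the form `2…21`. -/
def Branch : Type := {c : Vertex // IsBranch c}

/-- The involution `w11 ↔ w2` of the set of words; all other words are fixed. -/
def alpha : Word → Word
  | [] => []
  | [two] => [one, one]
  | [one, one] => [two]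
  | a :: l => a :: alpha l

open Classical in
/-- For a chain `x₀, …, xₙ`: the value `ε (x₀, …, x_m)`, where `m < n` is maximal such that
`x_m` has the form `2…21` (and `false` if there is no such `m`). -/
noncomputable def state (ε : Branch → Bool) : List Word → Bool
  | [] => false
  | [_] => false
  | _ :: x :: l =>
    if h : ∃ h' : IsPath (x :: l), IsBranch ⟨x :: l, h'⟩ then ε ⟨⟨x :: l, h.1⟩, h.2⟩
    else state ε (x :: l)

/-- The image of the chain `x₀, …, xₙ`: the word `xᵢ` is replaced by `alpha xᵢ` if
`state ε (x₀, …, xᵢ)` is true, and kept otherwise. -/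
noncomputable def img (ε : Branch → Bool) : List Word → List Word
  | [] => []
  | x :: l => (if state ε (x :: l) then alpha x else x) :: img ε l

/-! ### The list of covers -/

/-- The list of words covering a given word. -/
def ups : Word → List Word
  | [] => [[one]]
  | one :: v => [one :: one :: v, two :: v]
  | two :: v => (one :: two :: v) :: (ups v).map (fun y => two :: y)

lemma cover_iff (x y : Word) : Cover x y ↔ y ∈ ups x := by
  induction x generalizing y with
  | nil =>
    simp only [ups, List.mem_singleton]
    constructor
    · rintro ⟨u, v, hu, ⟨h1, h2⟩ | ⟨h1, h2⟩⟩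
      · have h3 := List.append_eq_nil_iff.mp h2.symm
        rw [h1, h3.1, h3.2]; rfl
      · have := congrArg List.length h2
        simp at this
    · rintro rfl
      exact ⟨[], [], by simp, Or.inl ⟨rfl, rfl⟩⟩
  | cons a x ih =>
    cases a with
    | one =>
      simp only [ups, List.mem_cons, List.not_mem_nil, or_false]
      constructor
      · rintro ⟨u, v, hu, ⟨h1, h2⟩ | ⟨h1, h2⟩⟩
        · cases u with
          | nil => left; rw [h1]; simp at h2; simp [← h2]
          | cons b u =>
            simp only [List.cons_append, List.cons.injEq] at h2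
            have := hu b (by simp)
            rw [← h2.1] at this
            cases this
        · cases u with
          | nil => right; rw [h1]; simp at h2; simp [← h2]
          | cons b u =>
            simp only [List.cons_append, List.cons.injEq] at h2
            have := hu b (by simp)
            rw [← h2.1] at this
            cases this
      · rintro (rfl | rfl)
        · exact ⟨[], one :: x, by simp, Or.inl ⟨rfl, rfl⟩⟩
        · exact ⟨[], x, by simp, Or.inr ⟨rfl, rfl⟩⟩
    | two =>
      simp only [ups, List.mem_cons, List.mem_map]
      constructor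
      · rintro ⟨u, v, hu, ⟨h1, h2⟩ | ⟨h1, h2⟩⟩
        · cases u with
          | nil => left; rw [h1]; simp at h2; simp [← h2]
          | cons b u =>
            right
            simp only [List.cons_append, List.cons.injEq] at h2
            have hb := hu b (by simp)
            refine ⟨u ++ one :: v, (ih _).mp ⟨u, v, fun a ha => hu a (by simp [ha]),
              Or.inl ⟨rfl, h2.2⟩⟩, ?_⟩
            rw [h1, hb]; rfl
        · cases u with
          | nil => simp at h2
          | cons b u =>
            right
            simp only [List.cons_append, List.cons.injEq] at h2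
            have hb := hu b (by simp)
            refine ⟨u ++ two :: v, (ih _).mp ⟨u, v, fun a ha => hu a (by simp [ha]),
              Or.inr ⟨rfl, h2.2⟩⟩, ?_⟩
            rw [h1, hb]; rfl
      · rintro (rfl | ⟨z, hz, rfl⟩)
        · exact ⟨[], two :: x, by simp, Or.inl ⟨rfl, rfl⟩⟩
        · obtain ⟨u, v, hu, h⟩ := (ih z).mpr hz
          refine ⟨two :: u, v, ?_, ?_⟩
          · intro a ha
            rcases List.mem_cons.mp ha with rfl | ha
            · rfl
            · exact hu a ha
          · rcases h with ⟨h1, h2⟩ | ⟨h1, h2⟩
            · left; rw [h1, h2]; exact ⟨rfl, rfl⟩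
            · right; rw [h1, h2]; exact ⟨rfl, rfl⟩

/-- the number of words covering `x`. -/
def deg (x : Word) : ℕ := (ups x).length

lemma ups_nodup (x : Word) : (ups x).Nodup := by
  induction x with
  | nil => simp [ups]
  | cons a x ih =>
    cases a with
    | one => simp [ups]
    | two =>
      simp only [ups, List.nodup_cons, List.mem_map, not_exists, not_and]
      refine ⟨fun z _ hz => by simp at hz, ?_⟩
      exact ih.map (fun a b h => by simpa using h)

lemma ups_ne_nil {x y : Word} (h : y ∈ ups x) : y ≠ [] := by
  cases x with
  | nil => simp [ups] at h; simp [h]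
  | cons a x =>
    cases a with
    | one => simp [ups] at h; rcases h with rfl | rfl <;> simp
    | two => simp [ups] at h; rcases h with rfl | ⟨z, _, rfl⟩ <;> simp

@[simp] lemma deg_nil : deg [] = 1 := rfl
@[simp] lemma deg_one (v : Word) : deg (one :: v) = 2 := rfl
@[simp] lemma deg_two (v : Word) : deg (two :: v) = deg v + 1 := by simp [deg, ups]

lemma deg_pos (x : Word) : 1 ≤ deg x := by
  cases x with
  | nil => simp
  | cons a x => cases a <;> simp

lemma two_le_deg {x : Word} (h : x ≠ []) : 2 ≤ deg x := by
  cases x with
  | nil => exact absurd rfl h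
  | cons a x =>
    cases a with
    | one => simp
    | two => simp [deg_pos]

/-- Distinct siblings with the same number of upper covers. -/
lemma siblings {x y z : Word} (hy : y ∈ ups x) (hz : z ∈ ups x) (hd : deg y = deg z)
    (hne : y ≠ z) : ∃ j, x = List.replicate j two ++ [one] ∧
      ((y = List.replicate j two ++ [one, one] ∧ z = List.replicate j two ++ [two]) ∨
       (z = List.replicate j two ++ [one, one] ∧ y = List.replicate j two ++ [two])) := by
  induction x generalizing y z with
  | nil =>
    simp [ups] at hy hz
    exact absurd (hy.trans hz.symm) hne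
  | cons a x ih =>
    cases a with
    | one =>
      simp only [ups, List.mem_cons, List.not_mem_nil, or_false] at hy hz
      have key : deg x = 1 → x = [] := by
        intro h
        by_contra hx
        have := two_le_deg hx
        omega
      rcases hy with rfl | rfl <;> rcases hz with rfl | rfl
      · exact absurd rfl hne
      · simp at hd
        have := key (by omega)
        subst this
        exact ⟨0, rfl, Or.inl ⟨rfl, rfl⟩⟩
      · simp at hd
        have := key (by omega)
        subst this
        exact ⟨0, rfl, Or.inr ⟨rfl, rfl⟩⟩
      · exact absurd rfl hne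
    | two =>
      simp only [ups, List.mem_cons, List.mem_map] at hy hz
      rcases hy with rfl | ⟨y, hy, rfl⟩ <;> rcases hz with rfl | ⟨z, hz, rfl⟩
      · exact absurd rfl hne
      · have := two_le_deg (ups_ne_nil hz)
        simp at hd; omega
      · have := two_le_deg (ups_ne_nil hy)
        simp at hd; omega
      · simp at hd
        obtain ⟨j, hx, h⟩ := ih hy hz hd (fun h => hne (by rw [h]))
        refine ⟨j + 1, ?_, ?_⟩
        · rw [hx]; rfl
        · rcases h with ⟨h1, h2⟩ | ⟨h1, h2⟩
          · left; rw [h1, h2]; exact ⟨rfl, rfl⟩
          · right; rw [h1, h2]; exact ⟨rfl, rfl⟩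

/-! ### The involution `alpha` -/

lemma alpha_cons (a : Letter) {l : Word} (h : l ≠ []) (h' : a = two ∨ l ≠ [one]) :
    alpha (a :: l) = a :: alpha l := by
  cases l with
  | nil => exact absurd rfl h
  | cons b l =>
    cases a <;> cases b <;> cases l <;> simp_all [alpha]

@[simp] lemma alpha_nil : alpha [] = [] := rfl
@[simp] lemma alpha_one : alpha [one] = [one] := rfl
@[simp] lemma alpha_two : alpha [two] = [one, one] := rfl
@[simp] lemma alpha_one_one : alpha [one, one] = [two] := rfl

lemma alpha_ne_nil {x : Word} (h : x ≠ []) : alpha x ≠ [] := by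
  cases x with
  | nil => exact absurd rfl h
  | cons a l =>
    cases l with
    | nil => cases a <;> simp
    | cons b l =>
      cases a <;> cases b <;> cases l <;> simp [alpha]

lemma alpha_eq_one {x : Word} (h : alpha x = [one]) : x = [one] := by
  cases x with
  | nil => simp at h
  | cons a l =>
    cases l with
    | nil => cases a <;> simp at h ⊢
    | cons b l =>
      by_cases h1 : a = one ∧ b :: l = [one]
      · rw [h1.1, h1.2] at h; simp at h
      · rw [alpha_cons a (by simp) (by cases a <;> simp_all)] at h
        simp only [List.cons.injEq] at h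
        exact absurd h.2 (alpha_ne_nil (by simp))

lemma alpha_alpha (x : Word) : alpha (alpha x) = x := by
  induction x with
  | nil => rfl
  | cons a l ih =>
    cases l with
    | nil => cases a <;> rfl
    | cons b l =>
      by_cases h1 : a = one ∧ b :: l = [one]
      · rw [h1.1, h1.2]; rfl
      · have h2 : a = two ∨ b :: l ≠ [one] := by cases a <;> simp_all
        rw [alpha_cons a (by simp) h2, alpha_cons a (alpha_ne_nil (by simp)), ih]
        rcases h2 with h2 | h2
        · exact Or.inl h2
        · exact Or.inr (fun h => h2 (alpha_eq_one h))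

lemma alpha_replicate_one (j : ℕ) :
    alpha (List.replicate j two ++ [one]) = List.replicate j two ++ [one] := by
  induction j with
  | zero => rfl
  | succ j ih =>
    rw [List.replicate_succ, List.cons_append, alpha_cons two (by simp) (Or.inl rfl), ih]

lemma alpha_replicate_two (j : ℕ) :
    alpha (List.replicate j two ++ [two]) = List.replicate j two ++ [one, one] := by
  induction j with
  | zero => rfl
  | succ j ih =>
    rw [List.replicate_succ, List.cons_append, alpha_cons two (by simp) (Or.inl rfl), ih]
    rfl

lemma alpha_replicate_one_one (j : ℕ) :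
    alpha (List.replicate j two ++ [one, one]) = List.replicate j two ++ [two] := by
  rw [← alpha_replicate_two, alpha_alpha]

/-- `alpha` preserves the cover relation. -/
lemma alpha_ups {x y : Word} (h : y ∈ ups x) : alpha y ∈ ups (alpha x) := by
  induction x generalizing y with
  | nil => simp [ups] at h; subst h; simp [ups]
  | cons a x ih =>
    cases a with
    | one =>
      simp only [ups, List.mem_cons, List.not_mem_nil, or_false] at h
      by_cases h0 : x = []
      · subst h0
        rcases h with rfl | rfl <;> simp [ups]
      · by_cases h1 : x = [one]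
        · subst h1
          rcases h with rfl | rfl
          · have : alpha [one, one, one] = [one, two] := rfl
            rw [this]; simp [ups]
          · have : alpha [two, one] = [two, one] := rfl
            rw [this]; simp [ups]
        · rw [alpha_cons one h0 (Or.inr h1)]
          rcases h with rfl | rfl
          · rw [alpha_cons one (by simp) (Or.inr (by simp [h0])), alpha_cons one h0 (Or.inr h1)]
            simp [ups]
          · rw [alpha_cons two h0 (Or.inl rfl)]
            simp [ups]
    | two =>
      simp only [ups, List.mem_cons, List.mem_map] at h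
      by_cases h0 : x = []
      · subst h0
        rcases h with rfl | ⟨z, hz, rfl⟩
        · have : alpha [one, two] = [one, one, one] := rfl
          rw [this]; simp [ups]
        · simp [ups] at hz; subst hz
          have : alpha [two, one] = [two, one] := rfl
          rw [this]; simp [ups]
      · rw [alpha_cons two h0 (Or.inl rfl)]
        rcases h with rfl | ⟨z, hz, rfl⟩
        · rw [alpha_cons one (by simp) (Or.inr (by simp)), alpha_cons two h0 (Or.inl rfl)]
          simp [ups]
        · rw [alpha_cons two (ups_ne_nil hz) (Or.inl rfl)]
          simp only [ups, List.mem_cons, List.mem_map]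
          right
          exact ⟨_, ih hz, rfl⟩

lemma alpha_cover (x y : Word) : Cover (alpha x) (alpha y) ↔ Cover x y := by
  rw [cover_iff, cover_iff]
  constructor
  · intro h
    have := alpha_ups h
    rwa [alpha_alpha, alpha_alpha] at this
  · exact alpha_ups

lemma deg_alpha (x : Word) : deg (alpha x) = deg x := by
  induction x with
  | nil => rfl
  | cons a l ih =>
    cases l with
    | nil => cases a <;> simp
    | cons b l =>
      by_cases h1 : a = one ∧ b :: l = [one]
      · rw [h1.1, h1.2]; simp
      · have h2 : a = two ∨ b :: l ≠ [one] := by cases a <;> simp_all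
        rw [alpha_cons a (by simp) h2]
        cases a <;> simp [ih]

/-- `alpha` if `s` is true, the identity otherwise. -/
def al (s : Bool) (x : Word) : Word := if s then alpha x else x

lemma al_al (s : Bool) (x : Word) : al s (al s x) = x := by
  cases s <;> simp [al, alpha_alpha]

lemma al_ups (s : Bool) {x y : Word} (h : y ∈ ups x) : al s y ∈ ups (al s x) := by
  cases s
  · simpa [al] using h
  · simpa [al] using alpha_ups h

lemma deg_al (s : Bool) (x : Word) : deg (al s x) = deg x := by
  cases s <;> simp [al, deg_alpha]

lemma al_ne {s s' : Bool} (h : ¬ s = s') (y : Word) : al s' (al s y) = alpha y := by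
  cases s <;> cases s'
  · exact absurd rfl h
  · rfl
  · rfl
  · exact absurd rfl h

lemma al_not_alpha (s : Bool) (x : Word) : al (!s) (alpha x) = al s x := by
  cases s
  · simp [al, alpha_alpha]
  · simp [al]

lemma al_inj (s : Bool) {x y : Word} (h : al s x = al s y) : x = y := by
  rw [← al_al s x, h, al_al]

lemma al_branch (s : Bool) {x : Word} (h : ∃ j, x = List.replicate j two ++ [one]) :
    al s x = x := by
  obtain ⟨j, rfl⟩ := h
  cases s <;> simp [al, alpha_replicate_one]

/-! ### Vertices -/

/-- the last word of a chain -/
def top (l : List Word) : Word := l.headD []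

@[simp] lemma top_cons (y : Word) (l : List Word) : top (y :: l) = y := rfl

lemma path_cons {y : Word} {l : List Word} (hl : IsPath l) :
    IsPath (y :: l) ↔ y ∈ ups (top l) := by
  cases l with
  | nil => exact absurd hl (by simp [IsPath])
  | cons x l =>
    simp only [IsPath, top_cons, cover_iff]
    exact ⟨fun h => h.1, fun h => ⟨h, hl⟩⟩

lemma path_tail {y x : Word} {l : List Word} (h : IsPath (y :: x :: l)) : IsPath (x :: l) := h.2

/-- the root -/
def root : Vertex := ⟨[[]], rfl⟩

/-- the child of `c` with last word `y` -/
def child (c : Vertex) (y : Word) (h : y ∈ ups (top c.1)) : Vertex :=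
  ⟨y :: c.1, (path_cons c.2).mpr h⟩

lemma vertex_cases (c : Vertex) : c = root ∨ ∃ (d : Vertex) (y : Word) (h : y ∈ ups (top d.1)),
    c = child d y h := by
  obtain ⟨l, hl⟩ := c
  match l, hl with
  | [], hl => exact absurd hl (by simp [IsPath])
  | [x], hl =>
    left
    have : x = [] := hl
    subst this
    rfl
  | y :: x :: l, hl =>
    right
    have h1 : IsPath (x :: l) := path_tail hl
    exact ⟨⟨x :: l, h1⟩, y, (path_cons h1).mp hl, rfl⟩

lemma adj_child (c : Vertex) (y : Word) (h : y ∈ ups (top c.1)) : T.Adj (child c y h) c :=
  Or.inl ⟨y, rfl⟩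

lemma ups_ne (x : Word) : ∃ y, y ∈ ups x := by
  cases x with
  | nil => exact ⟨[one], by simp [ups]⟩
  | cons a x => cases a with
    | one => exact ⟨_, List.mem_cons_self⟩
    | two => exact ⟨_, List.mem_cons_self⟩

lemma two_neighbors (c : Vertex) (hc : c ≠ root) :
    ∃ a b, a ≠ b ∧ T.Adj c a ∧ T.Adj c b := by
  rcases vertex_cases c with h | ⟨d, y, h, rfl⟩
  · exact absurd h hc
  · obtain ⟨z, hz⟩ := ups_ne (top (child d y h).1)
    refine ⟨d, child (child d y h) z hz, ?_, adj_child d y h, (adj_child _ z hz).symm⟩
    intro heq
    have := congrArg (fun v => v.1.length) heq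
    simp [child] at this
    omega

lemma root_neighbor {a : Vertex} (h : T.Adj root a) : a.1 = [[one], []] := by
  rcases h with ⟨w, h⟩ | ⟨w, h⟩
  · have h1 : a.1 = [] := by
      have : ([[]] : List Word) = w :: a.1 := h
      simp at this
      exact this.2.symm ▸ rfl
    have h2 := a.2
    rw [h1] at h2
    exact absurd h2 (by simp [IsPath])
  · have h2 := a.2
    have h3 : a.1 = w :: [[]] := h
    rw [h3, path_cons (by simp [IsPath])] at h2
    simp [ups] at h2
    rw [h3, h2]

lemma map_root (φ : T ≃g T) : φ root = root := by
  by_contra h
  obtain ⟨a, b, hab, ha, hb⟩ := two_neighbors _ h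
  have ha' : T.Adj root (φ.symm a) := by
    rw [← φ.map_adj_iff]; simpa using ha
  have hb' : T.Adj root (φ.symm b) := by
    rw [← φ.map_adj_iff]; simpa using hb
  have h1 := root_neighbor ha'
  have h2 := root_neighbor hb'
  have h3 : φ.symm a = φ.symm b := Subtype.ext (h1.trans h2.symm)
  exact hab (φ.symm.injective h3)

lemma ne_nil (c : Vertex) : c.1 ≠ [] := by
  intro h
  have h2 := c.2
  rw [h] at h2
  exact absurd h2 (by simp [IsPath])

/-- automorphisms preserve the parent relation -/
lemma map_child (φ : T ≃g T) : ∀ (n : ℕ) (d : Vertex) (y : Word) (h : y ∈ ups (top d.1)),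
    d.1.length = n → ∃ w, (φ (child d y h)).1 = w :: (φ d).1 := by
  intro n
  induction n using Nat.strong_induction_on with
  | _ n ih =>
    intro d y h hn
    have hadj : T.Adj (φ (child d y h)) (φ d) := φ.map_adj_iff.mpr (adj_child d y h)
    rcases hadj with h1 | ⟨w, h1⟩
    · exact h1
    · exfalso
      rcases vertex_cases d with hd | ⟨e, x, hx, hd⟩
      · have h0 : φ d = root := by rw [hd]; exact map_root φ
        rw [h0] at h1
        have h2 : ([[]] : List Word) = w :: (φ (child d y h)).1 := h1
        simp only [List.cons.injEq] at h2
        exact ne_nil _ h2.2.symm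
      · subst hd
        obtain ⟨w', h2⟩ := ih e.1.length (by rw [← hn]; simp [child]) e x hx rfl
        rw [h2] at h1
        have h3 : (φ e).1 = (φ (child (child e x hx) y h)).1 := by
          simp at h1; exact h1.2
        have h4 : e = child (child e x hx) y h := φ.injective (Subtype.ext h3)
        have := congrArg (fun v => v.1.length) h4
        simp [child] at this
        omega

/-- The last word of the image of a child is a cover of the last word of the image. -/
lemma map_child_ups (φ : T ≃g T) (d : Vertex) (y : Word) (h : y ∈ ups (top d.1)) :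
    top (φ (child d y h)).1 ∈ ups (top (φ d).1) ∧
      (φ (child d y h)).1 = top (φ (child d y h)).1 :: (φ d).1 := by
  obtain ⟨w, hw⟩ := map_child φ _ d y h rfl
  have h2 := (φ (child d y h)).2
  rw [hw, path_cons (φ d).2] at h2
  rw [hw]
  exact ⟨h2, rfl⟩

lemma deg_le (φ : T ≃g T) (c : Vertex) : deg (top c.1) ≤ deg (top (φ c).1) := by
  classical
  have h1 : ∀ x, deg x = (ups x).toFinset.card := fun x =>
    (List.toFinset_card_of_nodup (ups_nodup x)).symm
  rw [h1, h1, ← Fintype.card_coe, ← Fintype.card_coe]
  let F : ↥(ups (top c.1)).toFinset → ↥(ups (top (φ c).1)).toFinset := fun y =>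
    ⟨top (φ (child c y.1 (List.mem_toFinset.mp y.2))).1,
      List.mem_toFinset.mpr (map_child_ups φ c y.1 _).1⟩
  apply Fintype.card_le_of_injective F
  intro y z hyz
  have h2 : top (φ (child c y.1 (List.mem_toFinset.mp y.2))).1
      = top (φ (child c z.1 (List.mem_toFinset.mp z.2))).1 := congrArg Subtype.val hyz
  have h3 := (map_child_ups φ c y.1 (List.mem_toFinset.mp y.2)).2
  have h4 := (map_child_ups φ c z.1 (List.mem_toFinset.mp z.2)).2
  rw [h2, ← h4] at h3
  have h5 := φ.injective (Subtype.ext h3)
  have h6 := congrArg (fun v => top v.1) h5
  exact Subtype.ext (by simpa [child] using h6)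

lemma deg_eq (φ : T ≃g T) (c : Vertex) : deg (top (φ c).1) = deg (top c.1) := by
  apply le_antisymm _ (deg_le φ c)
  have := deg_le φ.symm (φ c)
  simpa using this

lemma siblings' {x y z : Word} (hy : y ∈ ups x) (hz : z ∈ ups x) (hd : deg y = deg z) :
    z = y ∨ z = alpha y := by
  by_cases hne : y = z
  · exact Or.inl hne.symm
  · right
    obtain ⟨j, _, ⟨h1, h2⟩ | ⟨h1, h2⟩⟩ := siblings hy hz hd hne
    · rw [h1, h2, alpha_replicate_one_one]
    · rw [h1, h2, alpha_replicate_two]

/-- The last word of a chain is kept or changed by `alpha`. -/
lemma map_top (φ : T ≃g T) : ∀ (n : ℕ) (c : Vertex), c.1.length = n →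
    ∃ s, top (φ c).1 = al s (top c.1) := by
  intro n
  induction n using Nat.strong_induction_on with
  | _ n ih =>
    intro c hn
    rcases vertex_cases c with hc | ⟨d, y, hy, hc⟩
    · subst hc
      exact ⟨false, by rw [map_root]; rfl⟩
    · subst hc
      obtain ⟨s, hs⟩ := ih d.1.length (by rw [← hn]; simp [child]) d rfl
      have h1 := (map_child_ups φ d y hy).1
      have h2 := deg_eq φ (child d y hy)
      rw [hs] at h1
      have h3 := al_ups s h1
      rw [al_al] at h3
      have h4 : deg y = deg (al s (top (φ (child d y hy)).1)) := by
        rw [deg_al, h2]; rfl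
      have h5 : top (φ (child d y hy)).1 = al s y ∨ top (φ (child d y hy)).1 = al s (alpha y) := by
        rcases siblings' hy h3 h4 with h | h
        · left
          calc top (φ (child d y hy)).1 = al s (al s (top (φ (child d y hy)).1)) :=
                (al_al _ _).symm
            _ = al s y := by rw [h]
        · right
          calc top (φ (child d y hy)).1 = al s (al s (top (φ (child d y hy)).1)) :=
                (al_al _ _).symm
            _ = al s (alpha y) := by rw [h]
      show ∃ s, top (φ (child d y hy)).1 = al s y
      rcases h5 with h5 | h5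
      · exact ⟨s, h5⟩
      · refine ⟨!s, ?_⟩
        rw [h5]
        cases s <;> simp [al, alpha_alpha]

/-! ### The explicit automorphisms -/

lemma img_cons (ε : Branch → Bool) (x : Word) (l : List Word) :
    img ε (x :: l) = al (state ε (x :: l)) x :: img ε l := rfl

lemma branch_iff (c : Vertex) : IsBranch c ↔ ∃ j, top c.1 = List.replicate j two ++ [one] := by
  obtain ⟨l, hl⟩ := c
  cases l with
  | nil => exact absurd hl (by simp [IsPath])
  | cons x l => simp [IsBranch]

lemma state_branch (ε : Branch → Bool) (b : Branch) (y : Word) :
    state ε (y :: b.1.1) = ε b := by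
  obtain ⟨⟨l, hl⟩, hb⟩ := b
  cases l with
  | nil => exact absurd hl (by simp [IsPath])
  | cons x l =>
    simp only [state]
    rw [dif_pos ⟨hl, hb⟩]

lemma state_not_branch (ε : Branch → Bool) (c : Vertex) (hc : ¬ IsBranch c) (y : Word) :
    state ε (y :: c.1) = state ε c.1 := by
  obtain ⟨l, hl⟩ := c
  cases l with
  | nil => exact absurd hl (by simp [IsPath])
  | cons x l =>
    simp only [state]
    rw [dif_neg (fun h => hc h.2)]

/-- the transformation applied to the last word of a child agrees with that of the parent. -/
lemma al_state (ε : Branch → Bool) (c : Vertex) (y : Word) :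
    al (state ε c.1) (top c.1) = al (state ε (y :: c.1)) (top c.1) := by
  by_cases hc : IsBranch c
  · have h := (branch_iff c).mp hc
    rw [al_branch _ h, al_branch _ h]
  · rw [state_not_branch ε c hc]

lemma state_indep (ε : Branch → Bool) (c : Vertex) (y z : Word) :
    state ε (y :: c.1) = state ε (z :: c.1) := by
  by_cases hc : IsBranch c
  · rw [state_branch ε ⟨c, hc⟩ y, state_branch ε ⟨c, hc⟩ z]
  · rw [state_not_branch ε c hc, state_not_branch ε c hc]

lemma top_img (ε : Branch → Bool) (c : Vertex) :
    top (img ε c.1) = al (state ε c.1) (top c.1) := by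
  obtain ⟨l, hl⟩ := c
  cases l with
  | nil => exact absurd hl (by simp [IsPath])
  | cons x l => rfl

lemma img_path (ε : Branch → Bool) : ∀ (n : ℕ) (c : Vertex), c.1.length = n →
    IsPath (img ε c.1) := by
  intro n
  induction n using Nat.strong_induction_on with
  | _ n ih =>
    intro c hn
    rcases vertex_cases c with hc | ⟨d, y, hy, hc⟩
    · subst hc
      show IsPath [if state ε [[]] then alpha [] else []]
      simp [state, IsPath]
    · subst hc
      have h1 := ih d.1.length (by rw [← hn]; simp [child]) d rfl
      show IsPath (img ε (y :: d.1))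
      rw [img_cons, path_cons h1, top_img, al_state ε d y]
      exact al_ups _ hy

/-- the explicit map on vertices -/
noncomputable def imgV (ε : Branch → Bool) (c : Vertex) : Vertex :=
  ⟨img ε c.1, img_path ε _ c rfl⟩

lemma imgV_root (ε : Branch → Bool) : imgV ε root = root := by
  apply Subtype.ext
  show [if state ε [[]] then alpha [] else []] = [[]]
  simp [state]

lemma imgV_inj (ε : Branch → Bool) : ∀ (n : ℕ) (c d : Vertex), c.1.length = n →
    img ε c.1 = img ε d.1 → c = d := by
  have hlen : ∀ l, (img ε l).length = l.length := by
    intro l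
    induction l with
    | nil => rfl
    | cons x l ih => rw [img_cons]; simp [ih]
  intro n
  induction n using Nat.strong_induction_on with
  | _ n ih =>
    intro c d hn hcd
    have hl : c.1.length = d.1.length := by rw [← hlen, hcd, hlen]
    rcases vertex_cases c with hc | ⟨c', y, hy, hc⟩ <;> rcases vertex_cases d with hd | ⟨d', z, hz, hd⟩
    · rw [hc, hd]
    · subst hc hd
      exfalso
      have : d'.1 = [] := by simpa [root, child] using hl
      exact ne_nil _ this
    · subst hc hd
      exfalso
      have : c'.1 = [] := by simpa [root, child] using hl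
      exact ne_nil _ this
    · subst hc hd
      have h1 : img ε (y :: c'.1) = img ε (z :: d'.1) := hcd
      rw [img_cons, img_cons] at h1
      simp only [List.cons.injEq] at h1
      have h2 := ih c'.1.length (by rw [← hn]; simp [child]) c' d' rfl h1.2
      subst h2
      have h3 := h1.1
      rw [state_indep ε c' z y] at h3
      have h4 := al_inj _ h3
      subst h4
      rfl

lemma imgV_surj (ε : Branch → Bool) : ∀ (n : ℕ) (d : Vertex), d.1.length = n →
    ∃ c, imgV ε c = d := by
  intro n
  induction n using Nat.strong_induction_on with
  | _ n ih =>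
    intro d hn
    rcases vertex_cases d with hd | ⟨d', y, hy, hd⟩
    · exact ⟨root, by rw [imgV_root, hd]⟩
    · subst hd
      obtain ⟨c', hc'⟩ := ih d'.1.length (by rw [← hn]; simp [child]) d' rfl
      subst hc'
      have h1 : y ∈ ups (top (img ε c'.1)) := hy
      rw [top_img, al_state ε c' []] at h1
      have h2 := al_ups (state ε ([] :: c'.1)) h1
      rw [al_al] at h2
      refine ⟨child c' _ h2, ?_⟩
      apply Subtype.ext
      show img ε (al (state ε ([] :: c'.1)) y :: c'.1) = y :: img ε c'.1
      rw [img_cons, state_indep ε c' _ [], al_al]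

/-- The automorphism attached to a portrait `ε`. -/
noncomputable def autOf (ε : Branch → Bool) : T ≃g T where
  toEquiv := Equiv.ofBijective (imgV ε)
    ⟨fun c d h => imgV_inj ε _ c d rfl (congrArg Subtype.val h), fun d => imgV_surj ε _ d rfl⟩
  map_rel_iff' := by
    have key : ∀ c d : Vertex, (∃ w, (imgV ε c).1 = w :: (imgV ε d).1) ↔ (∃ w, c.1 = w :: d.1) := by
      intro c d
      constructor
      · rintro ⟨w, hw⟩
        rcases vertex_cases c with hc | ⟨c', y, hy, hc⟩
        · subst hc
          rw [imgV_root] at hw
          have h2 : ([[]] : List Word) = w :: (imgV ε d).1 := hw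
          simp at h2
          exact absurd h2.2 (ne_nil _)
        · subst hc
          have h1 : img ε (y :: c'.1) = w :: img ε d.1 := hw
          rw [img_cons] at h1
          simp only [List.cons.injEq] at h1
          have h2 := imgV_inj ε _ c' d rfl h1.2
          subst h2
          exact ⟨y, rfl⟩
      · rintro ⟨w, hw⟩
        refine ⟨al (state ε c.1) w, ?_⟩
        show img ε c.1 = al (state ε c.1) w :: img ε d.1
        conv_lhs => rw [hw]
        rw [img_cons, ← hw]
    intro c d
    exact or_congr (key c d) (key d c)

lemma autOf_apply (ε : Branch → Bool) (c : Vertex) : (autOf ε c).1 = img ε c.1 := rfl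

/-- the child `2^j 11` of a branch vertex `2^j 1`. -/
def kid (b : Branch) : Vertex :=
  child b.1 (top b.1.1 ++ [one]) (by
    obtain ⟨j, hj⟩ := (branch_iff b.1).mp b.2
    rw [hj, ← cover_iff]
    exact ⟨List.replicate j two, [one], fun a ha => (List.mem_replicate.mp ha).2,
      Or.inl ⟨by simp, rfl⟩⟩)

lemma kid_ups (b : Branch) : top b.1.1 ++ [one] ∈ ups (top b.1.1) := by
  obtain ⟨j, hj⟩ := (branch_iff b.1).mp b.2
  rw [hj, ← cover_iff]
  exact ⟨List.replicate j two, [one], fun a ha => (List.mem_replicate.mp ha).2,
    Or.inl ⟨by simp, rfl⟩⟩

lemma kid_top (b : Branch) : ∃ j, top b.1.1 = List.replicate j two ++ [one] ∧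
    top (kid b).1 = List.replicate j two ++ [one, one] := by
  obtain ⟨j, hj⟩ := (branch_iff b.1).mp b.2
  refine ⟨j, hj, ?_⟩
  show top b.1.1 ++ [one] = _
  rw [hj]; simp

lemma al_kid (b : Branch) {s s' : Bool} (h : al s (top (kid b).1) = al s' (top (kid b).1)) :
    s = s' := by
  obtain ⟨j, _, hj⟩ := kid_top b
  rw [hj] at h
  cases s <;> cases s' <;> simp [al, alpha_replicate_one_one] at h ⊢

lemma top_autOf_kid (ε : Branch → Bool) (b : Branch) :
    top (autOf ε (kid b)).1 = al (ε b) (top (kid b).1) := by
  rw [autOf_apply, top_img]
  congr 1
  exact state_branch ε b _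

lemma autOf_injective : Function.Injective autOf := by
  intro ε δ h
  funext b
  apply al_kid b
  rw [← top_autOf_kid, ← top_autOf_kid, h]

open Classical in
lemma autOf_surjective : Function.Surjective autOf := by
  intro φ
  let ε : Branch → Bool := fun b => decide (top (φ (kid b)).1 ≠ top (kid b).1)
  have hε : ∀ b, top (φ (kid b)).1 = al (ε b) (top (kid b).1) := by
    intro b
    obtain ⟨s, hs⟩ := map_top φ _ (kid b) rfl
    rw [hs]
    congr 1
    show s = decide (top (φ (kid b)).1 ≠ top (kid b).1)
    cases s
    · rw [hs]; simp [al]
    · rw [hs]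
      symm
      rw [decide_eq_true_iff]
      intro h
      have := al_kid b (s := true) (s' := false) (by rw [h]; simp [al])
      cases this
  refine ⟨ε, ?_⟩
  have main : ∀ (n : ℕ) (c : Vertex), c.1.length = n → (φ c).1 = img ε c.1 := by
    intro n
    induction n using Nat.strong_induction_on with
    | _ n ih =>
      intro c hn
      rcases vertex_cases c with hc | ⟨d, y, hy, hc⟩
      · subst hc
        rw [map_root, ← autOf_apply]
        rw [map_root]
      · subst hc
        have h1 := ih d.1.length (by rw [← hn]; simp [child]) d rfl
        have h2 := map_child_ups φ d y hy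
        rw [h2.2, h1]
        show _ = img ε (y :: d.1)
        rw [img_cons]
        congr 1
        obtain ⟨s, hs⟩ := map_top φ _ (child d y hy) rfl
        have hs' : top (φ (child d y hy)).1 = al s y := hs
        have h3 := h2.1
        rw [h1, top_img, al_state ε d y] at h3
        set s' := state ε (y :: d.1) with hs'def
        by_cases hss : s = s'
        · rw [hs', hss]
        · -- then `alpha y` covers the last word of `d` as well
          have h4 := al_ups s' h3
          rw [al_al, hs'] at h4
          have h5 : al s' (al s y) = alpha y := al_ne hss y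
          rw [h5] at h4
          by_cases h6 : y = alpha y
          · rw [hs']
            have : ∀ t, al t y = y := by
              intro t; cases t
              · rfl
              · simp only [al]; exact h6.symm
            rw [this, this]
          · obtain ⟨j, hj1, hj2⟩ := siblings hy h4 (deg_alpha y).symm h6
            exfalso
            have hbr : IsBranch d := (branch_iff d).mpr ⟨j, hj1⟩
            let b : Branch := ⟨d, hbr⟩
            have hkid : top (kid b).1 = List.replicate j two ++ [one, one] := by
              show top d.1 ++ [one] = _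
              rw [hj1]; simp
            have hst : s' = ε b := state_branch ε b y
            rcases hj2 with ⟨h7, h8⟩ | ⟨h7, h8⟩
            · -- `y = 2^j 11`
              have h9 : child d y hy = kid b := by
                apply Subtype.ext
                show y :: d.1 = (top d.1 ++ [one]) :: d.1
                rw [h7, hj1]; simp
              have h10 := hε b
              rw [← h9, hs] at h10
              have h11 : s = ε b := by
                apply al_kid b
                rw [← h9]; exact h10
              exact hss (h11.trans hst.symm)
            · -- `y = 2^{j+1}`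
              exfalso
              have h10 := hε b
              have hs2 : s = !(ε b) := by
                rw [← hst]
                exact Bool.eq_not.mpr hss
              have hy2 : y = alpha (top (kid b).1) := by
                rw [hkid, h8, alpha_replicate_one_one]
              have h11 : top (φ (child d y hy)).1 = top (φ (kid b)).1 := by
                rw [h10, hs', hs2]
                conv_lhs => rw [hy2]
                exact al_not_alpha _ _
              have h12 := (map_child_ups φ d y hy).2
              have h13 := (map_child_ups φ d (top d.1 ++ [one]) (kid_ups b)).2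
              have h14 : child d (top d.1 ++ [one]) (kid_ups b) = kid b := rfl
              rw [h14] at h13
              rw [h11, ← h13] at h12
              have h15 := φ.injective (Subtype.ext h12)
              have h16 : y = top d.1 ++ [one] := congrArg (fun v : Vertex => top v.1) h15
              rw [h8, hj1] at h16
              have := congrArg List.length h16
              simp at this
  apply RelIso.ext
  intro c
  apply Subtype.ext
  exact (main _ c rfl).symm

lemma branch_autOf (δ : Branch → Bool) (b : Branch) : IsBranch (autOf δ b.1) := by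
  rw [branch_iff]
  obtain ⟨j, hj⟩ := (branch_iff b.1).mp b.2
  refine ⟨j, ?_⟩
  rw [autOf_apply, top_img, al_branch _ ⟨j, hj⟩, hj]

lemma autOf_comp (ε δ : Branch → Bool) :
    (autOf δ).trans (autOf ε)
      = autOf (fun b => xor (ε ⟨autOf δ b.1, branch_autOf δ b⟩) (δ b)) := by
  obtain ⟨γ, hγ⟩ := autOf_surjective ((autOf δ).trans (autOf ε))
  rw [← hγ]
  congr 1
  funext b
  apply al_kid b
  rw [← top_autOf_kid, hγ]
  show top (autOf ε (autOf δ (kid b))).1 = _
  rw [autOf_apply, top_img]
  have h1 : (autOf δ (kid b)).1 = al (δ b) (top (kid b).1) :: (autOf δ b.1).1 := by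
    show img δ ((top b.1.1 ++ [one]) :: b.1.1) = _
    rw [img_cons, state_branch]
    rfl
  rw [h1, top_cons, state_branch ε ⟨autOf δ b.1, branch_autOf δ b⟩]
  generalize ε ⟨autOf δ b.1, branch_autOf δ b⟩ = s
  generalize δ b = t
  cases s <;> cases t <;> simp [al, alpha_alpha]

/-- **Answer to MP_ac28de_co.**  `Aut(T)` is parametrized by the functions `ε : B → {0,1}` on the
set `B` of chains ending in a word `2…21`: the automorphism `Φ ε` sends `x₀, …, xₙ` to the chain
whose `i`-th word is `xᵢ` or `alpha xᵢ` according to the value of `ε` at `x₀, …, x_m`, with `m < i`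
maximal such that `x_m` has the form `2…21` (`xᵢ` itself if there is no such `m`).
Every automorphism has this form for exactly one `ε`, and the composition rule is
`Φ ε ∘ Φ δ = Φ (b ↦ ε (Φ δ b) + δ b)`.  (`alpha` is an involutive automorphism of the
Young–Fibonacci lattice.) -/
theorem result :
    (∀ x, alpha (alpha x) = x) ∧ (∀ x y, Cover (alpha x) (alpha y) ↔ Cover x y) ∧
    ∃ (Φ : (Branch → Bool) ≃ (T ≃g T)) (h : ∀ δ (b : Branch), IsBranch (Φ δ b.1)),
      (∀ ε (c : Vertex), (Φ ε c).1 = img ε c.1) ∧
      (∀ ε δ, (Φ δ).trans (Φ ε) = Φ (fun b => xor (ε ⟨Φ δ b.1, h δ b⟩) (δ b))) :=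
  ⟨alpha_alpha, alpha_cover, Equiv.ofBijective autOf ⟨autOf_injective, autOf_surjective⟩,
    branch_autOf, autOf_apply, autOf_comp⟩

end Pool.Agent.Results.MP_ac28de_co.AutDescription
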